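import Pool.Agent.R708.ExtendFinal
import Pool.Agent.R708.BrittonInst
import Pool.Agent.R708.Rigid

/-!
# MP_995dc9_al

Every extendable endomorphism of a group is an inner automorphism or the trivial endomorphism;
hence it admits a coherent choice.
-/

open Monoid Pool.Agent.R708

namespace Pool.Agent.Results.MP_995dc9_al.ExtendableInnerOrTrivial

universe u

/-- `α` is extendable: for every homomorphism `f : G → H` there is an endomorphism `β` of `H` with
`β f = f α`. -/
def Extendable {G : Type u} [Group G] (α : G →* G) : Prop :=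
  ∀ (H : Type u) [Group H] (f : G →* H), ∃ β : H →* H, β.comp f = f.comp α

/-- A coherent choice for `α`: endomorphisms `β_f` of `H` for all `f : G → H` with `β_f f = f α`
and `β_{hf} h = h β_f`. -/
def HasCoherentChoice {G : Type u} [Group G] (α : G →* G) : Prop :=
  ∃ β : ∀ (H : Type u) [Group H], (G →* H) → (H →* H),
    (∀ (H : Type u) [Group H] (f : G →* H), (β H f).comp f = f.comp α) ∧
    ∀ (H₁ H₂ : Type u) [Group H₁] [Group H₂] (f : G →* H₁) (h : H₁ →* H₂),
      (β H₂ (h.comp f)).comp h = h.comp (β H₁ f)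

theorem zpowersHom_injective {M L : Type u} [Group M] [Group L] {E : Type} (B : Brit M L E)
    {l : List (E × M)} (h : B.C l) : Function.Injective (zpowersHom L (B.P l)) := by
  rw [injective_iff_map_eq_one]
  intro n hn
  by_contra hne
  have h0 : Multiplicative.toAdd n ≠ 0 := fun h => hne h
  apply h.zpow_not_conj h0 1 1
  rw [zpowersHom_apply] at hn
  rw [hn]
  simp

/-- **MP_995dc9_al**, full answer: every extendable endomorphism of a group admits a coherent
choice; it is an inner automorphism or the trivial endomorphism. -/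
theorem result (G : Type u) [Group G] (α : G →* G) (hα : Extendable α) :
    HasCoherentChoice α ∧ ((∃ c : G, ∀ g, α g = c * g * c⁻¹) ∨ ∀ g, α g = 1) := by
  have main : (∃ c : G, ∀ g, α g = c * g * c⁻¹) ∨ ∀ g, α g = 1 := by
    obtain ⟨P, hP1, hP2⟩ := exists_rigid {g : G // g ≠ 1}
    let Q : Set (G × G × G) := {q | ∃ (h1 : q.1 ≠ 1) (h2 : q.2.1 ≠ 1) (h3 : q.2.2 ≠ 1),
      ((⟨q.1, h1⟩, ⟨q.2.1, h2⟩, ⟨q.2.2, h3⟩) :
        {g : G // g ≠ 1} × {g : G // g ≠ 1} × {g : G // g ≠ 1}) ∈ P}
    have hQ : ∀ q ∈ Q, q.1 ≠ 1 ∧ q.2.1 ≠ 1 ∧ q.2.2 ≠ 1 := fun q hq => ⟨hq.1, hq.2.1, hq.2.2.1⟩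
    obtain ⟨L, _, B₁, hA₁, hinv₁⟩ := exists_free (M := MG G)
    obtain ⟨H, _, B₂, hA₂, hA₂', rel⟩ := exists_mhnn
      (fun i : Idx Q => B₁.P (wd i)) (fun i : Idx Q => B₁.P (wd' i))
      (fun i => zpowersHom_injective B₁ (wd_C B₁ hA₁ hQ i))
      (fun i => zpowersHom_injective B₁ (wd'_C B₁ hA₁ hQ i))
    obtain ⟨β, hβ⟩ := hα H ((B₂.inc.comp B₁.inc).comp gM)
    refine extend_main B₁ hA₁ hinv₁ B₂ hA₂ hA₂' rel hQ ?_ ?_ α β ?_
    · intro g hg
      exact ⟨hg, hg, hg, hP1 _⟩
    · intro σ hσ hσQ g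
      by_cases hg : g = 1
      · rw [hg, map_one]
      · let f : {g : G // g ≠ 1} → {g : G // g ≠ 1} := fun x =>
          ⟨σ x.1, fun h => x.2 (hσ (by rw [h, map_one]))⟩
        have hf := hP2 f (by
          intro x y hxy
          apply Subtype.ext
          apply hσ
          exact congrArg Subtype.val hxy) (by
          intro x y z hxyz
          obtain ⟨_, _, _, h⟩ := hσQ (x.1, y.1, z.1) ⟨x.2, y.2, z.2, hxyz⟩
          exact h)
        exact congrArg Subtype.val (congrFun hf ⟨g, hg⟩)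
    · intro g
      exact congrArg (fun f => f g) hβ
  refine ⟨?_, main⟩
  rcases main with ⟨c, hc⟩ | h1
  · refine ⟨fun H _ f => (MulAut.conj (f c)).toMonoidHom, ?_, ?_⟩
    · intro H _ f
      ext g
      simp [hc]
    · intro H₁ H₂ _ _ f h
      ext x
      simp
  · refine ⟨fun H _ f => 1, ?_, ?_⟩
    · intro H _ f
      ext g
      simp [h1]
    · intro H₁ H₂ _ _ f h
      ext x
      simp

end Pool.Agent.Results.MP_995dc9_al.ExtendableInnerOrTrivial
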